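import Mathlib

set_option autoImplicit false

/-! Infinitely many primes `p` divide `n! + 1` for three `n < p` (helper634). -/

namespace Pool.Agent.Results.MP_79ed51_nt.ThreeFactorials

/-- the number of `n` with `1 ≤ n ≤ p - 1` and `p ∣ n! + 1` -/
def g (p : ℕ) : ℕ := ((Finset.Icc 1 (p - 1)).filter (fun n => p ∣ n.factorial + 1)).card

private lemma refl (p : ℕ) [Fact p.Prime] (n : ℕ) (hn : n ≤ p - 1) :
    ((n.factorial : ℕ) : ZMod p) * (((p - 1 - n).factorial : ℕ) : ZMod p) = (-1) ^ (n + 1) := by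
  induction n with
  | zero => simp [ZMod.wilsons_lemma]
  | succ n ih =>
    have h1 := ih (by omega)
    obtain ⟨m, hm⟩ : ∃ m, p - 1 - n = m + 1 := ⟨p - 1 - n - 1, by omega⟩
    have hm' : p - 1 - (n + 1) = m := by omega
    rw [hm, Nat.factorial_succ] at h1
    rw [hm', Nat.factorial_succ]
    push_cast at h1 ⊢
    have h2 : ((m : ZMod p) + 1) = -((n : ZMod p) + 1) := by
      have : m + 1 + (n + 1) = p := by omega
      have h3 : ((m + 1 + (n + 1) : ℕ) : ZMod p) = 0 := by
        rw [this]; exact ZMod.natCast_self p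
      push_cast at h3
      linear_combination h3
    rw [h2] at h1
    rw [pow_succ]
    linear_combination -h1

private lemma dvd_iff (p m : ℕ) : p ∣ m + 1 ↔ (m : ZMod p) = -1 := by
  rw [← ZMod.natCast_eq_zero_iff]
  push_cast
  exact add_eq_zero_iff_eq_neg

private lemma three {n p : ℕ} (hn : Odd n) (h1 : 1 < n) (hp : p.Prime)
    (hd : p ∣ n.factorial + 1) (h2 : p ≠ 2 * n + 1) : n < p ∧ 3 ≤ g p := by
  have := Fact.mk hp
  have hnp : n < p := by
    by_contra hlt
    push Not at hlt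
    have h3 : p ∣ n.factorial := (Nat.Prime.dvd_factorial hp).2 hlt
    have h4 : p ∣ 1 := (Nat.dvd_add_right h3).1 hd
    exact hp.one_lt.ne' (Nat.dvd_one.1 h4)
  have hne : p ≠ n + 1 := by
    rintro rfl
    rcases hp.eq_two_or_odd' with h | h
    · omega
    · obtain ⟨a, ha⟩ := hn
      obtain ⟨b, hb⟩ := h
      omega
  refine ⟨hnp, ?_⟩
  have hr := refl p n (by omega)
  have hodd : ((-1 : ZMod p)) ^ (n + 1) = 1 := Even.neg_one_pow hn.add_one
  have hn1 : ((n.factorial : ℕ) : ZMod p) = -1 := (dvd_iff p _).1 hd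
  rw [hodd, hn1] at hr
  have hm1 : (((p - 1 - n).factorial : ℕ) : ZMod p) = -1 := by linear_combination -hr
  have hw : (((p - 1).factorial : ℕ) : ZMod p) = -1 := ZMod.wilsons_lemma p
  have hsub : ({n, p - 1 - n, p - 1} : Finset ℕ) ⊆
      (Finset.Icc 1 (p - 1)).filter (fun n => p ∣ n.factorial + 1) := by
    intro x hx
    simp only [Finset.mem_insert, Finset.mem_singleton] at hx
    rw [Finset.mem_filter, Finset.mem_Icc]
    rcases hx with rfl | rfl | rfl
    · exact ⟨by omega, hd⟩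
    · exact ⟨by omega, (dvd_iff p _).2 hm1⟩
    · exact ⟨by omega, (dvd_iff p _).2 hw⟩
  have hcard : ({n, p - 1 - n, p - 1} : Finset ℕ).card = 3 := by
    rw [Finset.card_eq_three]
    exact ⟨n, p - 1 - n, p - 1, by omega, by omega, by omega, rfl⟩
  rw [← hcard]
  exact Finset.card_le_card hsub

/-- Every prime divisor `p` of `(6k+1)! + 1`, `k ≥ 1`, is larger than `6k+1` and divides
`n! + 1` for at least three `n` with `1 ≤ n ≤ p - 1`; in particular there are infinitely many
such primes. -/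
theorem result : (∀ k : ℕ, 1 ≤ k → ∀ p : ℕ, p.Prime → p ∣ (6 * k + 1).factorial + 1 →
      6 * k + 1 < p ∧ 3 ≤ g p) ∧
    ∀ N : ℕ, ∃ p : ℕ, p.Prime ∧ N < p ∧ 3 ≤ g p := by
  have key : ∀ k : ℕ, 1 ≤ k → ∀ p : ℕ, p.Prime → p ∣ (6 * k + 1).factorial + 1 →
      6 * k + 1 < p ∧ 3 ≤ g p := by
    intro k hk p hp hd
    refine three ⟨3 * k, by ring⟩ (by omega) hp hd ?_
    intro h
    have h3 : 3 ∣ p := ⟨4 * k + 1, by rw [h]; ring⟩
    have h4 := (Nat.prime_dvd_prime_iff_eq Nat.prime_three hp).1 h3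
    omega
  refine ⟨key, fun N => ?_⟩
  have hne : (6 * (N + 1) + 1).factorial + 1 ≠ 1 := by
    have := Nat.factorial_pos (6 * (N + 1) + 1)
    omega
  have h := key (N + 1) (by omega) _ (Nat.minFac_prime hne) (Nat.minFac_dvd _)
  exact ⟨_, Nat.minFac_prime hne, by omega, h.2⟩

end Pool.Agent.Results.MP_79ed51_nt.ThreeFactorials
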